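import Pool.Agent.Helper15_SIQ.Stmts

/-!
# LIM: the limits depend on the shape
-/

set_option autoImplicit false

open MeasureTheory Filter Topology

namespace Pool.Agent.SIQ.H26

open Pool.Agent.SIU Pool.Agent.SIQ

/-- weight of a block -/
noncomputable def wt2 (d : ℝ) (p : ℂ × ℂ) : ℝ :=
  th d (p.1.re / √(‖p.1‖ ^ 2 + ‖p.2‖ ^ 2)) * Real.exp (-(‖p.1‖ ^ 2 + ‖p.2‖ ^ 2))

/-- the comparison function -/
noncomputable def FF (η : ℝ) (p : ℂ × ℂ) : ℝ := ‖p.2‖ ^ 2 / (‖p.2‖ ^ 2 + η * ‖p.1‖ ^ 2)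

/-- weight of the two other blocks -/
noncomputable def HH (e d : ℝ) (r : Fin 4 → ℂ) : ℝ := wt2 e (r 0, r 1) * wt2 d (r 2, r 3)

theorem split (p : Fin 6) (q : Fin 5) (F : ℂ × ℂ → ℝ) (H : (Fin 4 → ℂ) → ℝ) :
    ∫ g : E6, F (g p, g (p.succAbove q)) * H (fun k => g (p.succAbove (q.succAbove k))) =
      (∫ x, F x) * ∫ r, H r := by
  have h1 := volume_preserving_piFinSuccAbove (fun _ : Fin 6 => ℂ) p
  have h2 := volume_preserving_piFinSuccAbove (fun _ : Fin 5 => ℂ) q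
  have h3 : MeasurePreserving (fun x : ℂ × (Fin 5 → ℂ) =>
      (x.1, MeasurableEquiv.piFinSuccAbove (fun _ => ℂ) q x.2))
      ((volume : Measure ℂ).prod volume) ((volume : Measure ℂ).prod volume) :=
    (MeasurePreserving.id (volume : Measure ℂ)).prod h2
  have h4 := (measurePreserving_prodAssoc (volume : Measure ℂ) (volume : Measure ℂ)
    (volume : Measure (Fin 4 → ℂ))).symm
  have h5 : ∫ g : E6, F (g p, g (p.succAbove q)) *
      H (fun k => g (p.succAbove (q.succAbove k))) =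
      ∫ x : ℂ × (Fin 5 → ℂ), F (x.1, x.2 q) * H (fun k => x.2 (q.succAbove k)) :=
    h1.integral_comp' (g := fun x : ℂ × (Fin 5 → ℂ) =>
      F (x.1, x.2 q) * H (fun k => x.2 (q.succAbove k)))
  rw [h5]
  have h6 : ∫ x : ℂ × (Fin 5 → ℂ), F (x.1, x.2 q) * H (fun k => x.2 (q.succAbove k)) =
      ∫ y : ℂ × (ℂ × (Fin 4 → ℂ)), F (y.1, y.2.1) * H y.2.2 := by
    have hme : MeasurableEmbedding (fun x : ℂ × (Fin 5 → ℂ) =>
      (x.1, MeasurableEquiv.piFinSuccAbove (fun _ => ℂ) q x.2)) :=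
      ((MeasurableEquiv.refl ℂ).prodCongr
        (MeasurableEquiv.piFinSuccAbove (fun _ => ℂ) q)).measurableEmbedding
    exact h3.integral_comp hme (fun y : ℂ × (ℂ × (Fin 4 → ℂ)) => F (y.1, y.2.1) * H y.2.2)
  rw [h6]
  have h7 : ∫ y : ℂ × (ℂ × (Fin 4 → ℂ)), F (y.1, y.2.1) * H y.2.2 =
      ∫ x : (ℂ × ℂ) × (Fin 4 → ℂ), F x.1 * H x.2 :=
    h4.integral_comp' (g := fun x : (ℂ × ℂ) × (Fin 4 → ℂ) => F x.1 * H x.2)
  rw [h7]
  exact integral_prod_mul F H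

theorem rho_eq (δ : Fin 3 → ℝ) (g : E6) :
    rho δ g = wt2 (δ 0) (g 0, g 1) * wt2 (δ 1) (g 2, g 3) * wt2 (δ 2) (g 4, g 5) := by
  unfold rho wt2 nn
  rw [Fin.prod_univ_three]
  rfl

/-- block `0` separated -/
theorem int0 (d e d' : ℝ) (F : ℂ × ℂ → ℝ) :
    ∫ g : E6, rho ![d, e, d'] g * F (g 0, g 1) = (∫ x, wt2 d x * F x) * ∫ r, HH e d' r := by
  rw [← split 0 0 (fun x => wt2 d x * F x) (HH e d')]
  congr 1
  funext g
  rw [rho_eq]
  show wt2 d (g 0, g 1) * wt2 e (g 2, g 3) * wt2 d' (g 4, g 5) * F (g 0, g 1) =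
    wt2 d (g 0, g 1) * F (g 0, g 1) * (wt2 e (g 2, g 3) * wt2 d' (g 4, g 5))
  ring

/-- block `1` separated -/
theorem int1 (d e d' : ℝ) (F : ℂ × ℂ → ℝ) :
    ∫ g : E6, rho ![e, d, d'] g * F (g 2, g 3) = (∫ x, wt2 d x * F x) * ∫ r, HH e d' r := by
  rw [← split 2 2 (fun x => wt2 d x * F x) (HH e d')]
  congr 1
  funext g
  rw [rho_eq]
  show wt2 e (g 0, g 1) * wt2 d (g 2, g 3) * wt2 d' (g 4, g 5) * F (g 2, g 3) =
    wt2 d (g 2, g 3) * F (g 2, g 3) * (wt2 e (g 0, g 1) * wt2 d' (g 4, g 5))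
  ring

theorem FF_nonneg {η : ℝ} (hη : 0 ≤ η) (p : ℂ × ℂ) : 0 ≤ FF η p := by
  unfold FF
  positivity

theorem FF_le_one {η : ℝ} (hη : 0 ≤ η) (p : ℂ × ℂ) : FF η p ≤ 1 := by
  unfold FF
  have h : 0 ≤ η * ‖p.1‖ ^ 2 := by positivity
  exact div_le_one_of_le₀ (by linarith) (by positivity)

theorem wt2_nonneg (d : ℝ) (p : ℂ × ℂ) : 0 ≤ wt2 d p :=
  mul_nonneg (th_nonneg _ _) (Real.exp_pos _).le

theorem measurable_FF (η : ℝ) : Measurable (FF η) := by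
  unfold FF
  fun_prop

theorem tendsto_FF {p : ℂ × ℂ} (hp : p.2 ≠ 0) : Tendsto (fun η => FF η p) (𝓝[>] 0) (𝓝 1) := by
  have h : ContinuousAt (fun η : ℝ => ‖p.2‖ ^ 2 / (‖p.2‖ ^ 2 + η * ‖p.1‖ ^ 2)) 0 := by
    refine ContinuousAt.div continuousAt_const (by fun_prop) ?_
    have := norm_pos_iff.mpr hp
    positivity
  have h2 : Tendsto (fun η : ℝ => ‖p.2‖ ^ 2 / (‖p.2‖ ^ 2 + η * ‖p.1‖ ^ 2)) (𝓝[>] 0)
      (𝓝 (‖p.2‖ ^ 2 / (‖p.2‖ ^ 2 + 0 * ‖p.1‖ ^ 2))) := h.tendsto.mono_left nhdsWithin_le_nhds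
  have h3 : ‖p.2‖ ^ 2 / (‖p.2‖ ^ 2 + 0 * ‖p.1‖ ^ 2) = 1 := by
    rw [zero_mul, add_zero]
    have := norm_pos_iff.mpr hp
    exact div_self (by positivity)
  rw [h3] at h2
  exact h2

theorem ae_ne : ∀ᵐ p : ℂ × ℂ, p.2 ≠ 0 := by
  have h : (volume : Measure (ℂ × ℂ)) {p | p.2 = 0} = 0 := by
    have h1 : {p : ℂ × ℂ | p.2 = 0} = Set.univ ×ˢ {0} := by
      ext p
      simp
    rw [h1, Measure.volume_eq_prod, Measure.prod_prod]
    simp
  rw [ae_iff]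
  simpa using h

theorem tendsto_int {d : ℝ} (hi : Integrable (wt2 d)) :
    Tendsto (fun η => ∫ x, wt2 d x * FF η x) (𝓝[>] 0) (𝓝 (∫ x, wt2 d x)) := by
  refine tendsto_integral_filter_of_dominated_convergence (wt2 d) ?_ ?_ hi ?_
  · exact Eventually.of_forall fun η =>
      hi.aestronglyMeasurable.mul (measurable_FF η).aestronglyMeasurable
  · filter_upwards [self_mem_nhdsWithin] with η hη
    refine Eventually.of_forall fun x => ?_
    have hη' : (0 : ℝ) ≤ η := le_of_lt hη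
    rw [Real.norm_of_nonneg (mul_nonneg (wt2_nonneg d x) (FF_nonneg hη' x))]
    exact mul_le_of_le_one_right (wt2_nonneg d x) (FF_le_one hη' x)
  · filter_upwards [ae_ne] with x hx
    have := (tendsto_FF hx).const_mul (wt2 d x)
    rwa [mul_one] at this

theorem key {e : ℝ} (he0 : 0 < e) (he : e < 1 / 4) {a b : ℂ}
    (h : (1 - e) * √(‖a‖ ^ 2 + ‖b‖ ^ 2) < a.re) : a ≠ 0 ∧ ‖b‖ ^ 2 ≤ 4 * e * ‖a‖ ^ 2 := by
  have h0 : 0 ≤ √(‖a‖ ^ 2 + ‖b‖ ^ 2) := Real.sqrt_nonneg _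
  have h1 : 0 ≤ (1 - e) * √(‖a‖ ^ 2 + ‖b‖ ^ 2) := mul_nonneg (by linarith) h0
  have h2 : a.re ≤ ‖a‖ := Complex.re_le_norm a
  have h3 : (1 - e) * √(‖a‖ ^ 2 + ‖b‖ ^ 2) ≤ ‖a‖ := (h.trans_le h2).le
  have h4 : ((1 - e) * √(‖a‖ ^ 2 + ‖b‖ ^ 2)) ^ 2 ≤ ‖a‖ ^ 2 := pow_le_pow_left₀ h1 h3 2
  rw [mul_pow, Real.sq_sqrt (by positivity)] at h4
  refine ⟨fun ha => ?_, ?_⟩
  · have h9 : a.re = 0 := by rw [ha, Complex.zero_re]
    linarith
  · have h5 : (1 : ℝ) / 2 ≤ (1 - e) ^ 2 := by nlinarith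
    have h6 : (1 - e) ^ 2 * ‖b‖ ^ 2 ≤ (1 - (1 - e) ^ 2) * ‖a‖ ^ 2 := by nlinarith
    have h7 : (1 - (1 - e) ^ 2) ≤ 2 * e := by nlinarith
    have h8 : 1 / 2 * ‖b‖ ^ 2 ≤ (1 - e) ^ 2 * ‖b‖ ^ 2 :=
      mul_le_mul_of_nonneg_right h5 (by positivity)
    have h9 : (1 - (1 - e) ^ 2) * ‖a‖ ^ 2 ≤ 2 * e * ‖a‖ ^ 2 :=
      mul_le_mul_of_nonneg_right h7 (by positivity)
    linarith

theorem quot1 {e x0 x1 x2 x3 : ℝ} (he : 0 < e) (h2 : 0 < x2) (h3 : x3 ^ 2 ≤ 4 * e * x2 ^ 2) :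
    x1 ^ 2 / (x1 ^ 2 + 4 * e * x0 ^ 2) ≤ (x1 * x2) ^ 2 / ((x1 * x2) ^ 2 + (x0 * x3) ^ 2) := by
  rcases eq_or_ne x1 0 with h1 | h1
  · rw [h1]
    simp
  · have hx1 : 0 < x1 ^ 2 := by positivity
    rw [div_le_div_iff₀ (by positivity) (by positivity)]
    have h4 : x0 ^ 2 * x3 ^ 2 ≤ x0 ^ 2 * (4 * e * x2 ^ 2) :=
      mul_le_mul_of_nonneg_left h3 (by positivity)
    have h5 : x1 ^ 2 * (x0 ^ 2 * x3 ^ 2) ≤ x1 ^ 2 * (x0 ^ 2 * (4 * e * x2 ^ 2)) :=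
      mul_le_mul_of_nonneg_left h4 hx1.le
    nlinarith

theorem quot2 {e x0 x1 x2 x3 : ℝ} (he : 0 < e) (h0 : 0 < x0) (h1 : x1 ^ 2 ≤ 4 * e * x0 ^ 2) :
    (x1 * x2) ^ 2 / ((x1 * x2) ^ 2 + (x0 * x3) ^ 2) ≤
      1 - x3 ^ 2 / (x3 ^ 2 + 4 * e * x2 ^ 2) := by
  rcases eq_or_ne x3 0 with h3 | h3
  · rw [h3]
    simp only [ne_eq, OfNat.ofNat_ne_zero, not_false_eq_true, zero_pow, zero_div, sub_zero,
      mul_zero, add_zero]
    exact div_self_le_one _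
  · have hx3 : 0 < x3 ^ 2 := by positivity
    have hD : 0 < x3 ^ 2 + 4 * e * x2 ^ 2 := by positivity
    have e1 : 1 - x3 ^ 2 / (x3 ^ 2 + 4 * e * x2 ^ 2) =
        (4 * e * x2 ^ 2) / (x3 ^ 2 + 4 * e * x2 ^ 2) := by
      field_simp
      ring
    rw [e1, div_le_div_iff₀ (by positivity) hD]
    have h4 : x2 ^ 2 * x3 ^ 2 * x1 ^ 2 ≤ x2 ^ 2 * x3 ^ 2 * (4 * e * x0 ^ 2) :=
      mul_le_mul_of_nonneg_left h1 (by positivity)
    nlinarith

theorem int_mul {f : E6 → ℝ} (hf : Integrable f) {r : E6 → ℝ} (hr : Measurable r)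
    (h0 : ∀ g, 0 ≤ r g) (h1 : ∀ g, r g ≤ 1) : Integrable (fun g => f g * r g) := by
  refine hf.mono (hf.aestronglyMeasurable.mul hr.aestronglyMeasurable)
    (Eventually.of_forall fun g => ?_)
  rw [norm_mul]
  refine mul_le_of_le_one_right (norm_nonneg _) ?_
  rw [Real.norm_of_nonneg (h0 g)]
  exact h1 g

/-- the integrand of `Wl` -/
noncomputable def rat (g : E6) : ℝ :=
  (‖g 1‖ * ‖g 2‖) ^ 2 / ((‖g 1‖ * ‖g 2‖) ^ 2 + (‖g 0‖ * ‖g 3‖) ^ 2)

theorem rat_nonneg (g : E6) : 0 ≤ rat g := by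
  unfold rat
  positivity

theorem rat_le_one (g : E6) : rat g ≤ 1 := by
  unfold rat
  have h : 0 ≤ (‖g 0‖ * ‖g 3‖) ^ 2 := by positivity
  exact div_le_one_of_le₀ (by linarith) (by positivity)

theorem measurable_rat : Measurable rat := by
  unfold rat
  fun_prop

theorem measurable_F (η : ℝ) (p q : Fin 6) : Measurable (fun g : E6 => FF η (g p, g q)) :=
  (measurable_FF η).comp ((measurable_pi_apply p).prodMk (measurable_pi_apply q))

theorem ad3 {a b c : ℝ} (ha : 0 < a ∧ a < 1) (hb : 0 < b ∧ b < 1) (hc : 0 < c ∧ c < 1) :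
    Ad ![a, b, c] := by
  intro i
  fin_cases i
  · exact ha
  · exact hb
  · exact hc

theorem lim (hR : RhoStmt) (_hQ : QumStmt) : LimStmt := by
  intro d hd0 hd1
  have hd : 0 < d ∧ d < 1 := ⟨hd0, hd1⟩
  have hZ0 : Zc ![d, d, d] = (∫ x, wt2 d x) * ∫ r, HH d d r := by
    have h := int0 d d d (fun _ => 1)
    simp only [mul_one] at h
    exact h
  have hZ0p := (hR _ (ad3 hd hd hd)).2.2.2.1
  rw [hZ0] at hZ0p
  have hI0 : 0 ≤ ∫ x, wt2 d x := integral_nonneg fun x => wt2_nonneg d x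
  have hI : 0 < ∫ x, wt2 d x := by
    refine lt_of_le_of_ne hI0 fun h => ?_
    rw [← h, zero_mul] at hZ0p
    exact lt_irrefl _ hZ0p
  have hint : Integrable (wt2 d) := by
    by_contra hc
    have := integral_undef hc
    rw [this] at hI
    exact lt_irrefl _ hI
  have hev : ∀ᶠ η in 𝓝[>] (0 : ℝ), 3 / 4 * (∫ x, wt2 d x) ≤ ∫ x, wt2 d x * FF η x :=
    (tendsto_int hint).eventually (eventually_ge_nhds (by linarith))
  obtain ⟨η0, hη0, hη⟩ := mem_nhdsGT_iff_exists_Ioo_subset.mp hev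
  have hη0' : (0 : ℝ) < η0 := hη0
  refine ⟨min (1 / 4) (η0 / 4), lt_min (by norm_num) (by linarith), fun e he0 he he1 => ?_⟩
  have he4 : e < 1 / 4 := lt_of_lt_of_le he (min_le_left _ _)
  have heη : 4 * e < η0 := by
    have := lt_of_lt_of_le he (min_le_right _ _)
    linarith
  have hJ : 3 / 4 * (∫ x, wt2 d x) ≤ ∫ x, wt2 d x * FF (4 * e) x := hη ⟨by linarith, heη⟩
  have he' : 0 < e ∧ e < 1 := ⟨he0, he1⟩
  have h4e : (0 : ℝ) ≤ 4 * e := by linarith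
  set I := ∫ x, wt2 d x with hIdef
  set J := ∫ x, wt2 d x * FF (4 * e) x with hJdef
  set K := ∫ r, HH e d r with hKdef
  constructor
  · have hR1 := hR _ (ad3 hd he' hd)
    have hZ : Zc ![d, e, d] = I * K := by
      have h := int0 d e d (fun _ => 1)
      simp only [mul_one] at h
      exact h
    have hZp := hR1.2.2.2.1
    rw [hZ] at hZp
    have hKp : 0 < K := (pos_iff_pos_of_mul_pos hZp).mp hI
    have hle : J * K ≤ ∫ g, rho ![d, e, d] g * rat g := by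
      rw [hJdef, hKdef, ← int0 d e d (FF (4 * e))]
      refine integral_mono (int_mul hR1.2.2.1 (measurable_F _ 0 1)
        (fun g => FF_nonneg h4e _) (fun g => FF_le_one h4e _))
        (int_mul hR1.2.2.1 measurable_rat rat_nonneg rat_le_one) fun g => ?_
      show rho ![d, e, d] g * FF (4 * e) (g 0, g 1) ≤ rho ![d, e, d] g * rat g
      by_cases h0 : rho ![d, e, d] g = 0
      · rw [h0, zero_mul, zero_mul]
      · refine mul_le_mul_of_nonneg_left ?_ (hR1.2.1 g).1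
        have hs := (hR1.2.2.2.2.2.2.1 g h0).2 1
        obtain ⟨h2, h3⟩ := key he0 he4 (a := g 2) (b := g 3) hs
        exact quot1 he0 (norm_pos_iff.mpr h2) h3
    have hW : Wl ![d, e, d] = (Zc ![d, e, d])⁻¹ * ∫ g, rho ![d, e, d] g * rat g := rfl
    rw [hW, hZ]
    have h1 : (I * K)⁻¹ * (J * K) ≤ (I * K)⁻¹ * ∫ g, rho ![d, e, d] g * rat g :=
      mul_le_mul_of_nonneg_left hle (inv_nonneg.mpr hZp.le)
    have h2 : (I * K)⁻¹ * (J * K) = J / I := by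
      field_simp
    have h3 : 3 / 4 ≤ J / I := by
      rw [le_div_iff₀ hI]
      exact hJ
    linarith
  · have hR1 := hR _ (ad3 he' hd hd)
    have hZ : Zc ![e, d, d] = I * K := by
      have h := int1 d e d (fun _ => 1)
      simp only [mul_one] at h
      exact h
    have hZp := hR1.2.2.2.1
    rw [hZ] at hZp
    have hKp : 0 < K := (pos_iff_pos_of_mul_pos hZp).mp hI
    have hle : ∫ g, rho ![e, d, d] g * rat g ≤ I * K - J * K := by
      have h1 : ∫ g, rho ![e, d, d] g * rat g ≤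
          ∫ g, (rho ![e, d, d] g - rho ![e, d, d] g * FF (4 * e) (g 2, g 3)) := by
        refine integral_mono (int_mul hR1.2.2.1 measurable_rat rat_nonneg rat_le_one)
          (hR1.2.2.1.sub (int_mul hR1.2.2.1 (measurable_F _ 2 3)
            (fun g => FF_nonneg h4e _) (fun g => FF_le_one h4e _))) fun g => ?_
        show rho ![e, d, d] g * rat g ≤
          rho ![e, d, d] g - rho ![e, d, d] g * FF (4 * e) (g 2, g 3)
        by_cases h0 : rho ![e, d, d] g = 0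
        · rw [h0, zero_mul, zero_mul, sub_zero]
        · have hs := (hR1.2.2.2.2.2.2.1 g h0).2 0
          obtain ⟨h2, h3⟩ := key he0 he4 (a := g 0) (b := g 1) hs
          have h4 : rat g ≤ 1 - FF (4 * e) (g 2, g 3) := quot2 he0 (norm_pos_iff.mpr h2) h3
          have h5 := mul_le_mul_of_nonneg_left h4 (hR1.2.1 g).1
          linarith
      rw [integral_sub hR1.2.2.1 (int_mul hR1.2.2.1 (measurable_F _ 2 3)
            (fun g => FF_nonneg h4e _) (fun g => FF_le_one h4e _)),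
        int1 d e d (FF (4 * e))] at h1
      have h2 : ∫ g, rho ![e, d, d] g = I * K := hZ
      rw [h2] at h1
      exact h1
    have hW : Wl ![e, d, d] = (Zc ![e, d, d])⁻¹ * ∫ g, rho ![e, d, d] g * rat g := rfl
    rw [hW, hZ]
    have h1 : (I * K)⁻¹ * ∫ g, rho ![e, d, d] g * rat g ≤ (I * K)⁻¹ * (I * K - J * K) :=
      mul_le_mul_of_nonneg_left hle (inv_nonneg.mpr hZp.le)
    have h2 : (I * K)⁻¹ * (I * K - J * K) = 1 - J / I := by
      field_simp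
    have h3 : 3 / 4 ≤ J / I := by
      rw [le_div_iff₀ hI]
      exact hJ
    linarith

end Pool.Agent.SIQ.H26
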