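import Pool.Agent.Helper15_SIQ.Stmts

/-!
# SUP: a current vanishes on forms which vanish near its support
-/

set_option autoImplicit false

open MeasureTheory Filter Topology

namespace Pool.Agent.SIQ.H26

open Pool.Agent.SIU Pool.Agent.SIQ

theorem sat_inv {O : Set E6} (hO : Sat O) {c : C3} (hc : ∀ j, c j ≠ 0) {z : E6}
    (h : X1.act c z ∈ O) : z ∈ O := by
  have := hO _ h (fun j => (c j)⁻¹) (fun j => inv_ne_zero (hc j))
  rwa [act1_inv hc] at this

/-- product of a form with an invariant function -/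
noncomputable def sm {k : ℕ} (φ : E6 → ℝ) (hφ : ContinuousOn φ X1.U)
    (hi : ∀ z ∈ X1.U, ∀ c : C3, (∀ j, c j ≠ 0) → φ (X1.act c z) = φ z) (β : X1.Form k) :
    X1.Form k :=
  ⟨fun z => φ z • β.1 z, hφ.smul β.2.1, ⟨fun z hz c hc v => by
      show φ (X1.act c z) * β.1 (X1.act c z) (fun i => X1.act c (v i)) = φ z * β.1 z v
      rw [hi z hz c hc, β.2.2.1.1 z hz c hc v], fun z hz v i hv => by
      show φ z * β.1 z v = 0
      rw [β.2.2.1.2 z hz v i hv, mul_zero]⟩, fun z hz => by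
      show φ z • β.1 z = 0
      rw [β.2.2.2 z hz, smul_zero]⟩

theorem sm_apply {k : ℕ} (φ : E6 → ℝ) (hφ : ContinuousOn φ X1.U)
    (hi : ∀ z ∈ X1.U, ∀ c : C3, (∀ j, c j ≠ 0) → φ (X1.act c z) = φ z) (β : X1.Form k) (z : E6) :
    (sm φ hφ hi β).1 z = φ z • β.1 z := rfl

theorem continuousOn_nz : ContinuousOn nz X1.U := by
  have hco : ∀ i : Fin 3, ContinuousOn (fun z : E6 => (((√(nn z i))⁻¹ : ℝ) : ℂ)) X1.U := by
    intro i
    refine Complex.continuous_ofReal.comp_continuousOn ?_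
    refine ContinuousOn.inv₀ (Real.continuous_sqrt.comp (continuous_nn i)).continuousOn ?_
    intro z hz
    exact (Real.sqrt_pos.mpr ((mem_U1' z).mp hz i)).ne'
  rw [continuousOn_pi]
  intro m
  obtain ⟨i, rfl | rfl⟩ := blocks m
  · have : (fun z : E6 => nz z (lo i)) = fun z => (((√(nn z i))⁻¹ : ℝ) : ℂ) * z (lo i) := by
      funext z
      unfold nz
      rw [act1_lo]
    rw [this]
    exact (hco i).mul (continuous_apply _).continuousOn
  · have : (fun z : E6 => nz z (hi i)) = fun z => (((√(nn z i))⁻¹ : ℝ) : ℂ) * z (hi i) := by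
      funext z
      unfold nz
      rw [act1_hi]
    rw [this]
    exact (hco i).mul (continuous_apply _).continuousOn

theorem nz_act {c : C3} (hc : ∀ j, c j ≠ 0) (z : E6) :
    nz (X1.act c z) = X1.act (fun i => c i / (‖c i‖ : ℂ)) (nz z) := by
  unfold nz
  rw [act1_act, act1_act]
  congr 1
  funext i
  rw [nn_act, Real.sqrt_mul (sq_nonneg _), Real.sqrt_sq (norm_nonneg _), mul_inv]
  push_cast
  have h : (‖c i‖ : ℂ) ≠ 0 := by
    exact_mod_cast (norm_pos_iff.mpr (hc i)).ne'
  field_simp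

theorem dist_act_le {u : C3} (hu : ∀ j, ‖u j‖ = 1) (w y : E6) :
    dist (X1.act u w) (X1.act u y) ≤ dist w y := by
  refine (dist_pi_le_iff dist_nonneg).mpr fun m => ?_
  refine le_trans (le_of_eq ?_) (dist_le_pi_dist w y m)
  obtain ⟨i, rfl | rfl⟩ := blocks m
  · rw [act1_lo, act1_lo, dist_eq_norm, dist_eq_norm, ← mul_sub, norm_mul, hu, one_mul]
  · rw [act1_hi, act1_hi, dist_eq_norm, dist_eq_norm, ← mul_sub, norm_mul, hu, one_mul]

theorem infDist_act_le {F : Set E6} (hF : F.Nonempty)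
    (hinv : ∀ y ∈ F, ∀ u : C3, (∀ j, ‖u j‖ = 1) → X1.act u y ∈ F) {u : C3} (hu : ∀ j, ‖u j‖ = 1)
    (w : E6) : Metric.infDist (X1.act u w) F ≤ Metric.infDist w F := by
  rw [Metric.le_infDist hF]
  intro y hy
  exact (Metric.infDist_le_dist_of_mem (hinv y hy u hu)).trans (dist_act_le hu w y)

theorem infDist_act {F : Set E6} (hF : F.Nonempty)
    (hinv : ∀ y ∈ F, ∀ u : C3, (∀ j, ‖u j‖ = 1) → X1.act u y ∈ F) {u : C3} (hu : ∀ j, ‖u j‖ = 1)
    (w : E6) : Metric.infDist (X1.act u w) F = Metric.infDist w F := by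
  have hu0 : ∀ j, u j ≠ 0 := fun j h => by
    have := hu j
    rw [h, norm_zero] at this
    exact zero_ne_one this
  refine le_antisymm (infDist_act_le hF hinv hu w) ?_
  have h := infDist_act_le hF hinv (u := fun j => (u j)⁻¹)
    (fun j => by rw [norm_inv, hu, inv_one]) (X1.act u w)
  rwa [act1_inv hu0] at h

theorem isClosed_M1 : IsClosed M1 := isCompact_M1.isClosed

theorem M1_act {y : E6} (hy : y ∈ M1) {u : C3} (hu : ∀ j, ‖u j‖ = 1) : X1.act u y ∈ M1 := by
  intro i
  rw [nn_act, hu, hy i]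
  norm_num

theorem unit_ne {u : C3} (hu : ∀ j, ‖u j‖ = 1) : ∀ j, u j ≠ 0 := fun j h => by
  have := hu j
  rw [h, norm_zero] at this
  exact zero_ne_one this

/-- the cut off functions -/
noncomputable def chi (O : Set E6) (z : E6) : ℝ := Metric.infDist (nz z) (M1 \ O)

theorem chi_nonneg (O : Set E6) (z : E6) : 0 ≤ chi O z := Metric.infDist_nonneg

theorem chi_cont (O : Set E6) : ContinuousOn (chi O) X1.U :=
  (Metric.continuous_infDist_pt _).comp_continuousOn continuousOn_nz

theorem chi_inv {O : Set E6} (hO : Sat O) (hne : (M1 \ O).Nonempty) (z : E6) (c : C3)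
    (hc : ∀ j, c j ≠ 0) : chi O (X1.act c z) = chi O z := by
  unfold chi
  rw [nz_act hc]
  refine infDist_act hne (fun y hy u hu => ⟨M1_act hy.1 hu, fun h => hy.2 ?_⟩) (fun j => ?_) _
  · exact sat_inv hO (unit_ne hu) h
  · rw [norm_div, Complex.norm_real, norm_norm]
    exact div_self (norm_pos_iff.mpr (hc j)).ne'

theorem nz_mem_iff {O : Set E6} (hO : Sat O) {z : E6} (hz : z ∈ X1.U) : nz z ∈ O ↔ z ∈ O :=
  ⟨fun h => sat_inv hO (nz_coef hz) h, fun h => hO z h _ (nz_coef hz)⟩

theorem chi_zero {O : Set E6} (hO : Sat O) {z : E6} (hz : z ∈ X1.U) (hn : z ∉ O) :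
    chi O z = 0 :=
  Metric.infDist_zero_of_mem ⟨nz_mem hz, fun h => hn ((nz_mem_iff hO hz).mp h)⟩

theorem chi_pos {O : Set E6} (hO : Sat O) (ho : IsOpen O) (hne : (M1 \ O).Nonempty) {z : E6}
    (hz : z ∈ X1.U) (hn : z ∈ O) : 0 < chi O z := by
  refine ((isClosed_M1.sdiff ho).notMem_iff_infDist_pos hne).mp ?_
  intro h
  exact h.2 ((nz_mem_iff hO hz).mpr hn)

theorem sup : SupStmt := by
  intro q T
  refine ⟨?_, ?_, ?_⟩
  · intro z hz c hc
    refine ⟨(act1_mem_U hc z).mpr hz.1, fun O ho hzO hO => ?_⟩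
    exact hz.2 O ho (sat_inv hO hc hzO) hO
  · rintro z ⟨hzU, hzc⟩
    refine ⟨hzU, fun O ho hzO hO => ?_⟩
    obtain ⟨y, hyO, hy⟩ := mem_closure_iff.mp hzc O ho hzO
    exact hy.2 O ho hyO hO
  · intro O ho hO hsub β hβ
    -- the compact set
    have hcomp : IsCompact (M1 \ O) := isCompact_M1.diff ho
    have hloc : ∀ z : E6, z ∈ M1 \ O → ∃ P : Set E6, IsOpen P ∧ z ∈ P ∧ Sat P ∧
        ∀ γ : X1.Form (2 * q), (∀ w, w ∉ P → γ.1 w = 0) → T γ = 0 := by
      intro z hz
      have h1 : z ∉ X1.supp T := fun h => hz.2 (hsub h)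
      by_contra hcon
      apply h1
      refine ⟨M1_subset hz.1, fun P hP hzP hPs => ?_⟩
      by_contra hc2
      apply hcon
      refine ⟨P, hP, hzP, hPs, fun γ hγ => ?_⟩
      by_contra hγ0
      exact hc2 ⟨γ, hγ, hγ0⟩
    choose! P hPo hPm hPs hPT using hloc
    obtain ⟨t, hcov⟩ := hcomp.elim_nhds_subcover' (fun z _ => P z)
      (fun z hz => (hPo z hz).mem_nhds (hPm z hz))
    by_cases hne : ∀ z ∈ t, (M1 \ P z).Nonempty
    · -- sum of the cut off functions
      have hsat : ∀ z ∈ t, Sat (P z) := fun z _ => hPs z z.2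
      let S : E6 → ℝ := fun z => ∑ j ∈ t, chi (P j) z
      have hSc : ContinuousOn S X1.U := continuousOn_finsetSum _ fun j _ => chi_cont _
      have hSpos : ∀ z ∈ M1 \ O, 0 < S z := by
        intro z hz
        obtain ⟨j, hj, hzj⟩ := Set.mem_iUnion₂.mp (hcov hz)
        refine Finset.sum_pos' (fun i _ => chi_nonneg _ _) ⟨j, hj, ?_⟩
        exact chi_pos (hsat j hj) (hPo j j.2) (hne j hj) (M1_subset hz.1) hzj
      have hmin : ∃ c : ℝ, 0 < c ∧ ∀ z ∈ M1 \ O, c ≤ S z := by
        rcases (M1 \ O).eq_empty_or_nonempty with h0 | h0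
        · exact ⟨1, one_pos, fun z hz => by rw [h0] at hz; exact absurd hz (Set.notMem_empty z)⟩
        · obtain ⟨x, hx, hmin⟩ := hcomp.exists_isMinOn h0
            (hSc.mono (fun z hz => M1_subset hz.1))
          exact ⟨S x, hSpos x hx, fun z hz => hmin hz⟩
      obtain ⟨c, hc, hcS⟩ := hmin
      have hinvS : ∀ z ∈ X1.U, ∀ d : C3, (∀ j, d j ≠ 0) → S (X1.act d z) = S z := by
        intro z _ d hd
        exact Finset.sum_congr rfl fun j hj => chi_inv (hsat j hj) (hne j hj) z d hd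
      let φ : E6 → E6 → ℝ := fun j z => chi (P j) z / max (S z) c
      have hφc : ∀ j, ContinuousOn (φ j) X1.U := fun j =>
        (chi_cont (P j)).div (hSc.sup continuousOn_const)
          (fun z _ => (lt_of_lt_of_le hc (le_max_right _ _)).ne')
      have hφi : ∀ j ∈ t, ∀ z ∈ X1.U, ∀ d : C3, (∀ i, d i ≠ 0) →
          φ j (X1.act d z) = φ j z := by
        intro j hj z hz d hd
        show chi (P j) (X1.act d z) / max (S (X1.act d z)) c = chi (P j) z / max (S z) c
        rw [chi_inv (hsat j hj) (hne j hj) z d hd, hinvS z hz d hd]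
      have hsum : β = ∑ j ∈ t.attach, sm (φ j.1) (hφc j.1) (hφi j.1 j.2) β := by
        apply form_ext
        intro z hz
        have hval : (∑ j ∈ t.attach, sm (φ j.1) (hφc j.1) (hφi j.1 j.2) β).1 z =
            ∑ j ∈ t.attach, φ j.1 z • β.1 z := by
          have : (∑ j ∈ t.attach, sm (φ j.1) (hφc j.1) (hφi j.1 j.2) β).1 =
              ∑ j ∈ t.attach, (sm (φ j.1) (hφc j.1) (hφi j.1 j.2) β).1 :=
            Submodule.coe_sum _ _ _
          rw [this, Finset.sum_apply]
          rfl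
        rw [hval, ← Finset.sum_smul, Finset.sum_attach t (fun j => φ j.1 z)]
        by_cases hzO : z ∈ O
        · rw [hβ z hzO, smul_zero]
        · have hnz : nz z ∈ M1 \ O := ⟨nz_mem hz, fun h => hzO ((nz_mem_iff hO hz).mp h)⟩
          have h1 : c ≤ S z := by
            have h2 := hcS (nz z) hnz
            have h3 : S (nz z) = S z := hinvS z hz _ (nz_coef hz)
            rwa [h3] at h2
          have h4 : ∑ j ∈ t, φ j.1 z = 1 := by
            show ∑ j ∈ t, chi (P j) z / max (S z) c = 1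
            rw [← Finset.sum_div, max_eq_left h1]
            exact div_self (lt_of_lt_of_le hc h1).ne'
          rw [h4, one_smul]
      rw [hsum, map_sum]
      refine Finset.sum_eq_zero fun j _ => ?_
      refine hPT j.1 j.1.2 _ fun w hw => ?_
      rw [sm_apply]
      by_cases hwU : w ∈ X1.U
      · have : φ j.1 w = 0 := by
          show chi (P j.1) w / max (S w) c = 0
          rw [chi_zero (hsat j.1 j.2) hwU hw, zero_div]
        rw [this, zero_smul]
      · rw [β.2.2.2 w hwU, smul_zero]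
    · push Not at hne
      obtain ⟨z, hz, hem⟩ := hne
      refine hPT z z.2 β fun w hw => β.2.2.2 w fun hwU => hw ?_
      rw [← nz_mem_iff (hPs z z.2) hwU]
      by_contra hc
      have : nz w ∈ M1 \ P z := ⟨nz_mem hwU, hc⟩
      rw [hem] at this
      exact this

end Pool.Agent.SIQ.H26
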